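import Mathlib
import Pool.Agent.R849.SV.Arb

/-!
# Bounded perturbations of arbitrary finite sets of integers: the core

* `family`: among `n` pointwise distinct bounded perturbations of a set one gives a large product set
  with any given set.
* `select`: a set of perturbations which is not exponentially thin contains `n` perturbations that
  are distinct at more than half of the points.
* `oneSided`: the perturbations which are bad for a given set are exponentially thin (with a power
  saving in the number of the possible values).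
-/

set_option autoImplicit false

namespace Pool.Agent.K3h11.BP

open Finset Pool.Agent.R849.RF Pool.Agent.R849.SV

/-- the perturbed set: the numbers `s i + ξ i`, `i ∈ G` -/
def pt {ι : Type} (s ξ : ι → ℤ) (G : Finset ι) : Finset ℤ := G.image fun i => s i + ξ i

lemma pt_mono {ι : Type} (s ξ : ι → ℤ) {G H : Finset ι} (h : G ⊆ H) : pt s ξ G ⊆ pt s ξ H :=
  image_subset_image h

lemma pt_nonempty {ι : Type} (s ξ : ι → ℤ) {G : Finset ι} (h : G.Nonempty) : (pt s ξ G).Nonempty :=
  h.image _

lemma vals_mono (f : Polynomial ℤ) {X Y : Finset ℤ} (h : X ⊆ Y) : vals f X ⊆ vals f Y :=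
  erase_subset_erase _ (image_subset_image h)

lemma AB_mono (B : Finset ℂ) {X Y : Finset ℤ} (h : X ⊆ Y) : AB B X ⊆ AB B Y := by
  unfold AB
  exact image_subset_image (product_subset_product_right h)

lemma card_pt {ι : Type} (s ξ : ι → ℤ) (hs : Function.Injective s) (G : Finset ι) (w : ℕ)
    (hw : ∀ i ∈ G, |ξ i| ≤ w) : G.card ≤ (2 * w + 1) * (pt s ξ G).card := by
  classical
  unfold pt
  refine card_le_mul_card_image (f := fun i => s i + ξ i) G (2 * w + 1) fun x _ => ?_
  have h1 : ((G.filter fun i => s i + ξ i = x).image ξ).card =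
      (G.filter fun i => s i + ξ i = x).card := by
    refine card_image_of_injOn fun i hi j hj hij => ?_
    simp only [coe_filter, Set.mem_ofPred_eq] at hi hj
    apply hs
    have := hi.2
    have := hj.2
    omega
  rw [← h1]
  have h2 : (G.filter fun i => s i + ξ i = x).image ξ ⊆ Icc (-(w : ℤ)) w := by
    intro y hy
    obtain ⟨i, hi, rfl⟩ := mem_image.1 hy
    have := hw i (mem_filter.1 hi).1
    rw [mem_Icc]
    exact abs_le.1 this
  refine (card_le_card h2).trans ?_
  rw [Int.card_Icc]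
  omega

theorem family (ε : ℝ) (hε : 0 < ε) (hε1 : ε ≤ 1) (d : ℕ) :
    ∃ n : ℕ, 1 ≤ n ∧ ∀ w : ℕ, ∃ c : ℝ, 0 < c ∧
      ∀ f : Polynomial ℤ, 1 ≤ f.natDegree → f.natDegree ≤ d →
      ∀ (ι : Type) (s : ι → ℤ), Function.Injective s → ∀ G : Finset ι, G.Nonempty →
      ∀ g : ℕ → ι → ℤ, (∀ t < n, ∀ i ∈ G, |g t i| ≤ w) →
      (∀ i ∈ G, ∀ t < n, ∀ u < n, g t i = g u i → t = u) →
      ∀ B : Finset ℂ, B.Nonempty → (0 : ℂ) ∉ B →
      ∃ t < n, c * ((B.card : ℝ) * G.card) ^ (1 - ε) ≤ (AB B (vals f (pt s (g t) G))).card := by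
  classical
  obtain ⟨n₀, h⟩ := clustA ε hε hε1 d
  refine ⟨n₀ + 1, by omega, fun w => ?_⟩
  obtain ⟨c, hc, h⟩ := h (2 * w)
  refine ⟨c / ((n₀ + 1) * (2 * w + 1)), by positivity, ?_⟩
  intro f hf hfd ι s hs G hG g hw hg B hB hB0
  set X : Finset ℤ := (range (n₀ + 1)).biUnion fun t => pt s (g t) G with hX
  have hXne : X.Nonempty := by
    obtain ⟨x, hx⟩ := pt_nonempty s (g 0) hG
    exact ⟨x, mem_biUnion.2 ⟨0, by simp, hx⟩⟩
  have hcl : Clust n₀ (2 * w) X := by
    intro x hx
    obtain ⟨t, ht, hx⟩ := mem_biUnion.1 hx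
    unfold pt at hx
    obtain ⟨i, hi, rfl⟩ := mem_image.1 hx
    have ht' : t < n₀ + 1 := by simpa using ht
    have h1 : ((range (n₀ + 1)).image fun u => s i + g u i) ⊆
        X.filter fun y => |y - (s i + g t i)| ≤ ((2 * w : ℕ) : ℤ) := by
      intro y hy
      obtain ⟨u, hu, rfl⟩ := mem_image.1 hy
      have hu' : u < n₀ + 1 := by simpa using hu
      refine mem_filter.2 ⟨mem_biUnion.2 ⟨u, hu, mem_image.2 ⟨i, hi, rfl⟩⟩, ?_⟩
      have e1 := abs_le.1 (hw t ht' i hi)
      have e2 := abs_le.1 (hw u hu' i hi)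
      rw [abs_le]
      push_cast
      constructor <;> linarith [e1.1, e1.2, e2.1, e2.2]
    have h2 : ((range (n₀ + 1)).image fun u => s i + g u i).card = n₀ + 1 := by
      rw [card_image_of_injOn, card_range]
      intro u hu v hv huv
      have hu' : u < n₀ + 1 := by simpa using hu
      have hv' : v < n₀ + 1 := by simpa using hv
      exact hg i hi u hu' v hv' (by simpa using huv)
    have h3 := card_le_card h1
    omega
  have h1 := h f hf hfd X hXne hcl B hB hB0
  have h2 : (G.card : ℝ) ≤ (2 * w + 1) * X.card := by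
    have e1 := card_pt s (g 0) hs G w (hw 0 (by omega))
    have e2 : (pt s (g 0) G).card ≤ X.card :=
      card_le_card fun x hx => mem_biUnion.2 ⟨0, by simp, hx⟩
    have e3 : G.card ≤ (2 * w + 1) * X.card := e1.trans (Nat.mul_le_mul_left _ e2)
    exact_mod_cast e3
  have h3 : AB B (vals f X) ⊆ (range (n₀ + 1)).biUnion fun t => AB B (vals f (pt s (g t) G)) := by
    intro z hz
    unfold AB at hz
    obtain ⟨q, hq, rfl⟩ := mem_image.1 hz
    obtain ⟨hq1, hq2⟩ := mem_product.1 hq
    unfold vals at hq2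
    obtain ⟨hq3, hq4⟩ := mem_erase.1 hq2
    obtain ⟨x, hx, hx2⟩ := mem_image.1 hq4
    obtain ⟨t, ht, hx3⟩ := mem_biUnion.1 hx
    refine mem_biUnion.2 ⟨t, ht, ?_⟩
    unfold AB
    refine mem_image.2 ⟨q, mem_product.2 ⟨hq1, ?_⟩, rfl⟩
    exact mem_erase.2 ⟨hq3, mem_image.2 ⟨x, hx3, hx2⟩⟩
  by_contra hcon
  push Not at hcon
  have h4 : ((AB B (vals f X)).card : ℝ) ≤
      ∑ t ∈ range (n₀ + 1), ((AB B (vals f (pt s (g t) G))).card : ℝ) := by
    exact_mod_cast (card_le_card h3).trans card_biUnion_le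
  have h5 : ∑ t ∈ range (n₀ + 1), ((AB B (vals f (pt s (g t) G))).card : ℝ) <
      ∑ _t ∈ range (n₀ + 1), c / ((n₀ + 1) * (2 * w + 1)) * ((B.card : ℝ) * G.card) ^ (1 - ε) := by
    refine sum_lt_sum_of_nonempty ⟨0, by simp⟩ fun t ht => hcon t (by simpa using ht)
  rw [sum_const, card_range, nsmul_eq_mul] at h5
  have hBp : (0 : ℝ) < B.card := by exact_mod_cast card_pos.2 hB
  have hXp : (0 : ℝ) < X.card := by exact_mod_cast card_pos.2 hXne
  have hw1 : (1 : ℝ) ≤ 2 * w + 1 := by
    have : (0 : ℝ) ≤ w := Nat.cast_nonneg w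
    linarith
  have h6 : ((B.card : ℝ) * G.card) ^ (1 - ε) ≤
      (2 * w + 1) * ((B.card : ℝ) * X.card) ^ (1 - ε) := by
    calc ((B.card : ℝ) * G.card) ^ (1 - ε)
        ≤ ((2 * w + 1) * ((B.card : ℝ) * X.card)) ^ (1 - ε) := by
          refine Real.rpow_le_rpow (by positivity) ?_ (by linarith)
          nlinarith [mul_le_mul_of_nonneg_left h2 hBp.le]
      _ = (2 * w + 1 : ℝ) ^ (1 - ε) * ((B.card : ℝ) * X.card) ^ (1 - ε) :=
          Real.mul_rpow (by positivity) (by positivity)
      _ ≤ (2 * w + 1) * ((B.card : ℝ) * X.card) ^ (1 - ε) := by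
          refine mul_le_mul_of_nonneg_right ?_ (by positivity)
          calc (2 * w + 1 : ℝ) ^ (1 - ε) ≤ (2 * w + 1 : ℝ) ^ (1 : ℝ) :=
                Real.rpow_le_rpow_of_exponent_le hw1 (by linarith)
            _ = 2 * w + 1 := Real.rpow_one _
  have h7 : ((n₀ + 1 : ℕ) : ℝ) * (c / ((n₀ + 1) * (2 * w + 1)) *
      ((B.card : ℝ) * G.card) ^ (1 - ε)) ≤ c * ((B.card : ℝ) * X.card) ^ (1 - ε) := by
    have e1 : ((n₀ + 1 : ℕ) : ℝ) * (c / ((n₀ + 1) * (2 * w + 1)) *
        ((B.card : ℝ) * G.card) ^ (1 - ε)) =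
        c / (2 * w + 1) * ((B.card : ℝ) * G.card) ^ (1 - ε) := by
      push_cast
      field_simp
    rw [e1]
    calc c / (2 * w + 1) * ((B.card : ℝ) * G.card) ^ (1 - ε)
        ≤ c / (2 * w + 1) * ((2 * w + 1) * ((B.card : ℝ) * X.card) ^ (1 - ε)) :=
          mul_le_mul_of_nonneg_left h6 (by positivity)
      _ = c * ((B.card : ℝ) * X.card) ^ (1 - ε) := by field_simp
  linarith

section count

variable {ι : Type} [Fintype ι] [DecidableEq ι]

lemma count_hits (D : ι → Finset ℤ) (F : ι → Finset ℤ) (G : Finset ι) (n lam : ℕ)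
    (hF : ∀ i ∈ G, (F i).card ≤ n) (hD : ∀ i ∈ G, n * lam ≤ (D i).card) :
    ∑ ξ ∈ Fintype.piFinset D, lam ^ (G.filter fun i => ξ i ∈ F i).card ≤
      2 ^ G.card * ∏ i, (D i).card := by
  have h1 : ∀ ξ : ι → ℤ, lam ^ (G.filter fun i => ξ i ∈ F i).card =
      ∏ i, (if i ∈ G ∧ ξ i ∈ F i then lam else 1) := by
    intro ξ
    rw [prod_ite, prod_const_one, mul_one, prod_const]
    congr 2
    ext i
    simp
  simp only [h1]
  rw [← Finset.prod_univ_sum D fun i j => if i ∈ G ∧ j ∈ F i then lam else 1]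
  have h2 : 2 ^ G.card * ∏ i, (D i).card = ∏ i, ((if i ∈ G then 2 else 1) * (D i).card) := by
    rw [prod_mul_distrib, prod_ite, prod_const_one, mul_one, prod_const]
    congr 2
    rw [filter_univ_mem]
  rw [h2]
  refine prod_le_prod (fun _ _ => Nat.zero_le _) fun i _ => ?_
  by_cases hi : i ∈ G
  · simp only [hi, true_and, if_true]
    calc ∑ j ∈ D i, (if j ∈ F i then lam else 1)
        ≤ ∑ j ∈ D i, ((if j ∈ F i then lam else 0) + 1) :=
          sum_le_sum fun j _ => by split_ifs <;> omega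
      _ = ((D i).filter fun j => j ∈ F i).card * lam + (D i).card := by
          rw [sum_add_distrib, sum_ite, sum_const_zero, add_zero, sum_const, smul_eq_mul,
            sum_const, smul_eq_mul, mul_one]
      _ ≤ n * lam + (D i).card := by
          have : ((D i).filter fun j => j ∈ F i).card ≤ n := by
            refine (card_le_card fun j hj => (mem_filter.1 hj).2).trans (hF i hi)
          gcongr
      _ ≤ 2 * (D i).card := by have := hD i hi; omega
  · simp [hi]

lemma few_hits (D : ι → Finset ℤ) (F : ι → Finset ℤ) (G : Finset ι) (n K : ℕ) (hK : 1 ≤ K)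
    (hF : ∀ i ∈ G, (F i).card ≤ n) (hD : ∀ i ∈ G, n * (2 * K) ^ (2 * n) ≤ (D i).card) :
    ((Fintype.piFinset D).filter fun ξ =>
      G.card ≤ 2 * n * (G.filter fun i => ξ i ∈ F i).card).card * K ^ G.card ≤
        ∏ i, (D i).card := by
  have h1 := count_hits D F G n ((2 * K) ^ (2 * n)) hF hD
  have h2 : ((Fintype.piFinset D).filter fun ξ =>
      G.card ≤ 2 * n * (G.filter fun i => ξ i ∈ F i).card).card * (2 * K) ^ G.card ≤
      ∑ ξ ∈ Fintype.piFinset D, ((2 * K) ^ (2 * n)) ^ (G.filter fun i => ξ i ∈ F i).card := by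
    calc _ = ∑ _ξ ∈ (Fintype.piFinset D).filter fun ξ =>
          G.card ≤ 2 * n * (G.filter fun i => ξ i ∈ F i).card, (2 * K) ^ G.card := by
          rw [sum_const, smul_eq_mul]
      _ ≤ ∑ ξ ∈ (Fintype.piFinset D).filter fun ξ =>
          G.card ≤ 2 * n * (G.filter fun i => ξ i ∈ F i).card,
            ((2 * K) ^ (2 * n)) ^ (G.filter fun i => ξ i ∈ F i).card := by
          refine sum_le_sum fun ξ hξ => ?_
          rw [← pow_mul]
          exact Nat.pow_le_pow_right (by omega) (mem_filter.1 hξ).2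
      _ ≤ _ := sum_le_sum_of_subset (filter_subset _ _)
  have h3 := h2.trans h1
  rw [mul_pow, mul_left_comm] at h3
  exact Nat.le_of_mul_le_mul_left h3 (by positivity)

/-- the greedy choice of perturbations that are distinct at most points -/
lemma select (D : ι → Finset ℤ) (G : Finset ι) (n K : ℕ) (hn : 1 ≤ n) (hK : 1 ≤ K)
    (hD : ∀ i ∈ G, n * (2 * K) ^ (2 * n) ≤ (D i).card) (S : Finset (ι → ℤ))
    (hS : S ⊆ Fintype.piFinset D) (hbig : ∏ i, (D i).card < S.card * K ^ G.card) :
    ∃ g : ℕ → ι → ℤ, (∀ t < n, g t ∈ S) ∧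
      G.card < 2 * (G.filter fun i => ∀ t < n, ∀ u < n, g t i = g u i → t = u).card := by
  have key : ∀ t ≤ n, ∃ g : ℕ → ι → ℤ, (∀ u < t, g u ∈ S) ∧
      ∀ u < t, 2 * n * (G.filter fun i => ∃ v < u, g v i = g u i).card < G.card := by
    intro t
    induction t with
    | zero => intro _; exact ⟨fun _ _ => 0, fun u hu => absurd hu (by omega),
        fun u hu => absurd hu (by omega)⟩
    | succ t ih =>
      intro ht
      obtain ⟨g, hg1, hg2⟩ := ih (by omega)
      have h1 := few_hits D (fun i => (range t).image fun v => g v i) G n K hK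
        (fun i _ => card_image_le.trans (by rw [card_range]; omega)) hD
      have h2 : ∃ ξ ∈ S, ¬ (G.card ≤ 2 * n *
          (G.filter fun i => ξ i ∈ (range t).image fun v => g v i).card) := by
        by_contra hcon
        push Not at hcon
        have h3 : S ⊆ (Fintype.piFinset D).filter fun ξ => G.card ≤ 2 * n *
          (G.filter fun i => ξ i ∈ (range t).image fun v => g v i).card :=
          fun ξ hξ => mem_filter.2 ⟨hS hξ, hcon ξ hξ⟩
        have h4 := Nat.mul_le_mul_right (K ^ G.card) (card_le_card h3)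
        omega
      obtain ⟨ξ, hξ, h3⟩ := h2
      refine ⟨Function.update g t ξ, ?_, ?_⟩
      · intro u hu
        by_cases hut : u = t
        · rw [hut, Function.update_self]; exact hξ
        · rw [Function.update_of_ne hut]; exact hg1 u (by omega)
      · intro u hu
        by_cases hut : u = t
        · subst hut
          push Not at h3
          have e1 : (G.filter fun i => ∃ v < u, Function.update g u ξ v i = Function.update g u ξ u i) =
              G.filter fun i => ξ i ∈ (range u).image fun v => g v i := by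
            refine filter_congr fun i _ => ?_
            simp only [mem_image, mem_range, Function.update_self]
            constructor
            · rintro ⟨v, hv, hvi⟩
              rw [Function.update_of_ne (by omega)] at hvi
              exact ⟨v, hv, hvi⟩
            · rintro ⟨v, hv, hvi⟩
              refine ⟨v, hv, ?_⟩
              rw [Function.update_of_ne (by omega)]
              exact hvi
          rw [e1]
          exact h3
        · have h4 := hg2 u (by omega)
          have e1 : (G.filter fun i => ∃ v < u, Function.update g t ξ v i = Function.update g t ξ u i) =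
              G.filter fun i => ∃ v < u, g v i = g u i := by
            refine filter_congr fun i _ => ?_
            rw [Function.update_of_ne hut]
            constructor
            · rintro ⟨v, hv, hvi⟩
              rw [Function.update_of_ne (by omega)] at hvi
              exact ⟨v, hv, hvi⟩
            · rintro ⟨v, hv, hvi⟩
              refine ⟨v, hv, ?_⟩
              rw [Function.update_of_ne (by omega)]
              exact hvi
          rw [e1]
          exact h4
  obtain ⟨g, hg1, hg2⟩ := key n le_rfl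
  refine ⟨g, hg1, ?_⟩
  have h1 : G ⊆ (G.filter fun i => ∀ t < n, ∀ u < n, g t i = g u i → t = u) ∪
      (range n).biUnion fun u => G.filter fun i => ∃ v < u, g v i = g u i := by
    intro i hi
    rw [mem_union]
    by_cases h : ∀ t < n, ∀ u < n, g t i = g u i → t = u
    · left; exact mem_filter.2 ⟨hi, h⟩
    · right
      push Not at h
      obtain ⟨t, ht, u, hu, htu, hne⟩ := h
      rw [mem_biUnion]
      rcases lt_or_gt_of_ne hne with hlt | hlt
      · exact ⟨u, mem_range.2 hu, mem_filter.2 ⟨hi, t, hlt, htu⟩⟩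
      · exact ⟨t, mem_range.2 ht, mem_filter.2 ⟨hi, u, hlt, htu.symm⟩⟩
  have h2 := (card_le_card h1).trans (card_union_le _ _)
  have h3 : 2 * n * ((range n).biUnion fun u =>
      G.filter fun i => ∃ v < u, g v i = g u i).card < n * G.card := by
    calc _ ≤ 2 * n * ∑ u ∈ range n, (G.filter fun i => ∃ v < u, g v i = g u i).card :=
          Nat.mul_le_mul_left _ card_biUnion_le
      _ = ∑ u ∈ range n, 2 * n * (G.filter fun i => ∃ v < u, g v i = g u i).card := by
          rw [mul_sum]
      _ < ∑ _u ∈ range n, G.card :=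
          sum_lt_sum_of_nonempty ⟨0, by simp; omega⟩ fun u hu => hg2 u (by simpa using hu)
      _ = n * G.card := by rw [sum_const, card_range, smul_eq_mul]
  have h4 : 2 * ((range n).biUnion fun u =>
      G.filter fun i => ∃ v < u, g v i = g u i).card < G.card := by
    rw [mul_comm 2 n, mul_assoc] at h3
    exact Nat.lt_of_mul_lt_mul_left h3
  omega

/-- the perturbations which are bad for a given set are exponentially thin -/
theorem oneSided (ε : ℝ) (hε : 0 < ε) (hε1 : ε ≤ 1) (d : ℕ) :
    ∃ n : ℕ, 1 ≤ n ∧ ∀ w : ℕ, ∃ c : ℝ, 0 < c ∧ ∀ K : ℕ, 1 ≤ K →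
      ∀ f : Polynomial ℤ, 1 ≤ f.natDegree → f.natDegree ≤ d →
      ∀ (ι : Type) [Fintype ι] [DecidableEq ι] (s : ι → ℤ), Function.Injective s →
      ∀ (D : ι → Finset ℤ) (G : Finset ι), G.Nonempty →
      (∀ i ∈ G, n * (2 * K) ^ (2 * n) ≤ (D i).card ∧ ∀ t ∈ D i, |t| ≤ w) →
      ∀ B : Finset ℂ, B.Nonempty → (0 : ℂ) ∉ B →
      ((Fintype.piFinset D).filter fun ξ =>
        ((AB B (vals f (pt s ξ G))).card : ℝ) < c * ((B.card : ℝ) * G.card) ^ (1 - ε)).card *
          K ^ G.card ≤ ∏ i, (D i).card := by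
  obtain ⟨n, hn, h⟩ := family ε hε hε1 d
  refine ⟨n, hn, fun w => ?_⟩
  obtain ⟨c, hc, h⟩ := h w
  refine ⟨c / 2, by positivity, ?_⟩
  intro K hK f hf hfd ι _ _ s hs D G hG hD B hB hB0
  by_contra hcon
  push Not at hcon
  obtain ⟨g, hg1, hg2⟩ := select D G n K hn hK (fun i hi => (hD i hi).1) _ (filter_subset _ _) hcon
  set G' := G.filter fun i => ∀ t < n, ∀ u < n, g t i = g u i → t = u with hG'
  have hGp : 0 < G.card := card_pos.2 hG
  have hG'ne : G'.Nonempty := card_pos.1 (by omega)
  obtain ⟨t, ht, h1⟩ := h f hf hfd ι s hs G' hG'ne g (by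
      intro t ht i hi
      have h2 := (mem_filter.1 (hg1 t ht)).1
      rw [Fintype.mem_piFinset] at h2
      exact (hD i (mem_filter.1 hi).1).2 _ (h2 i)) (fun i hi => (mem_filter.1 hi).2) B hB hB0
  have h2 := (mem_filter.1 (hg1 t ht)).2
  have h3 : ((AB B (vals f (pt s (g t) G'))).card : ℝ) ≤ (AB B (vals f (pt s (g t) G))).card := by
    exact_mod_cast card_le_card (AB_mono B (vals_mono f (pt_mono s (g t) (filter_subset _ _))))
  have hBp : (0 : ℝ) < B.card := by exact_mod_cast card_pos.2 hB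
  have hG'p : (0 : ℝ) < G'.card := by exact_mod_cast card_pos.2 hG'ne
  have h4 : (G.card : ℝ) ≤ 2 * G'.card := by exact_mod_cast hg2.le
  have h5 : ((B.card : ℝ) * G.card) ^ (1 - ε) ≤ 2 * ((B.card : ℝ) * G'.card) ^ (1 - ε) := by
    calc ((B.card : ℝ) * G.card) ^ (1 - ε)
        ≤ (2 * ((B.card : ℝ) * G'.card)) ^ (1 - ε) := by
          refine Real.rpow_le_rpow (by positivity) ?_ (by linarith)
          nlinarith [mul_le_mul_of_nonneg_left h4 hBp.le]
      _ = (2 : ℝ) ^ (1 - ε) * ((B.card : ℝ) * G'.card) ^ (1 - ε) :=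
          Real.mul_rpow (by positivity) (by positivity)
      _ ≤ 2 * ((B.card : ℝ) * G'.card) ^ (1 - ε) := by
          refine mul_le_mul_of_nonneg_right ?_ (by positivity)
          calc (2 : ℝ) ^ (1 - ε) ≤ (2 : ℝ) ^ (1 : ℝ) :=
                Real.rpow_le_rpow_of_exponent_le (by norm_num) (by linarith)
            _ = 2 := Real.rpow_one _
  have h6 : c / 2 * ((B.card : ℝ) * G.card) ^ (1 - ε) ≤
      c * ((B.card : ℝ) * G'.card) ^ (1 - ε) := by
    calc c / 2 * ((B.card : ℝ) * G.card) ^ (1 - ε)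
        ≤ c / 2 * (2 * ((B.card : ℝ) * G'.card) ^ (1 - ε)) :=
          mul_le_mul_of_nonneg_left h5 (by positivity)
      _ = _ := by ring
  linarith

end count

end Pool.Agent.K3h11.BP
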