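import Mathlib
import Pool.Agent.K3h11.BP.Core

/-!
# Bounded perturbations: iterated products of disjoint parts
-/

set_option autoImplicit false

namespace Pool.Agent.K3h11.BP

open Finset Pool.Agent.R849.RF Pool.Agent.R849.SV Pool.Agent.Y359.PE

variable {ι : Type} [Fintype ι] [DecidableEq ι]

lemma card_pi_ite (D : ι → Finset ℤ) (G : Finset ι) (ξ₀ : ι → ℤ) :
    ∏ i, (if i ∈ G then D i else {ξ₀ i}).card = ∏ i ∈ G, (D i).card := by
  have h1 : ∀ i, (if i ∈ G then D i else {ξ₀ i}).card = if i ∈ G then (D i).card else 1 := by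
    intro i
    split_ifs <;> simp
  simp only [h1]
  rw [prod_ite, prod_const_one, mul_one, filter_univ_mem]

/-- averaging over the perturbations of the points outside `G` -/
lemma condition (D : ι → Finset ℤ) (G : Finset ι) (K : ℕ) (Bad : (ι → ℤ) → Prop)
    [DecidablePred Bad] (hne : ∀ i ∈ G, 0 < (D i).card)
    (h : ∀ ξ₀ ∈ Fintype.piFinset D,
      ((Fintype.piFinset fun i => if i ∈ G then D i else {ξ₀ i}).filter Bad).card * K ^ G.card ≤
        ∏ i ∈ G, (D i).card) :
    ((Fintype.piFinset D).filter Bad).card * K ^ G.card ≤ ∏ i, (D i).card := by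
  set P := ∏ i ∈ G, (D i).card with hP
  have hPp : 0 < P := prod_pos hne
  have e1 : ∀ ξ₀ ∈ Fintype.piFinset D,
      (Fintype.piFinset fun i => if i ∈ G then D i else {ξ₀ i}) =
        (Fintype.piFinset D).filter fun ξ => ∀ i, i ∉ G → ξ i = ξ₀ i := by
    intro ξ₀ h0
    rw [Fintype.mem_piFinset] at h0
    ext ξ
    rw [mem_filter, Fintype.mem_piFinset, Fintype.mem_piFinset]
    constructor
    · intro h1
      refine ⟨fun i => ?_, fun i hi => ?_⟩
      · have := h1 i
        split_ifs at this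
        · exact this
        · rw [mem_singleton.1 this]; exact h0 i
      · have := h1 i
        rw [if_neg hi, mem_singleton] at this
        exact this
    · rintro ⟨h1, h2⟩ i
      split_ifs with hi
      · exact h1 i
      · rw [mem_singleton]; exact h2 i hi
  have e2 : ∑ ξ₀ ∈ Fintype.piFinset D,
      ((Fintype.piFinset fun i => if i ∈ G then D i else {ξ₀ i}).filter Bad).card =
      ((Fintype.piFinset D).filter Bad).card * P := by
    calc _ = ∑ ξ₀ ∈ Fintype.piFinset D, ∑ ξ ∈ (Fintype.piFinset D).filter Bad,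
          (if ∀ i, i ∉ G → ξ i = ξ₀ i then 1 else 0) := by
          refine sum_congr rfl fun ξ₀ h0 => ?_
          rw [e1 ξ₀ h0, filter_comm, card_filter]
      _ = ∑ ξ ∈ (Fintype.piFinset D).filter Bad, ∑ ξ₀ ∈ Fintype.piFinset D,
          (if ∀ i, i ∉ G → ξ i = ξ₀ i then 1 else 0) := sum_comm
      _ = ∑ ξ ∈ (Fintype.piFinset D).filter Bad, P := by
          refine sum_congr rfl fun ξ hξ => ?_
          rw [← card_filter, hP, ← card_pi_ite D G ξ, ← Fintype.card_piFinset,
            e1 ξ (mem_filter.1 hξ).1]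
          congr 1
          refine filter_congr fun ξ₀ _ => ?_
          constructor <;> intro h1 i hi <;> exact (h1 i hi).symm
      _ = _ := by rw [sum_const, smul_eq_mul]
  have e3 : (∑ ξ₀ ∈ Fintype.piFinset D,
      ((Fintype.piFinset fun i => if i ∈ G then D i else {ξ₀ i}).filter Bad).card) * K ^ G.card ≤
      (∏ i, (D i).card) * P := by
    rw [sum_mul]
    calc _ ≤ ∑ _ξ₀ ∈ Fintype.piFinset D, P := sum_le_sum h
      _ = _ := by rw [sum_const, smul_eq_mul, Fintype.card_piFinset]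
  rw [e2, mul_right_comm] at e3
  exact Nat.le_of_mul_le_mul_right e3 hPp

/-- the product with a set which depends on the perturbation of the other points -/
theorem stepBad (ε : ℝ) (hε : 0 < ε) (hε1 : ε ≤ 1) (d : ℕ) :
    ∃ n : ℕ, 1 ≤ n ∧ ∀ w : ℕ, ∃ c : ℝ, 0 < c ∧ ∀ K : ℕ, 1 ≤ K →
      ∀ f : Polynomial ℤ, 1 ≤ f.natDegree → f.natDegree ≤ d →
      ∀ (ι : Type) [Fintype ι] [DecidableEq ι] (s : ι → ℤ), Function.Injective s →
      ∀ (D : ι → Finset ℤ), (∀ i, n * (2 * K) ^ (2 * n) ≤ (D i).card ∧ ∀ t ∈ D i, |t| ≤ w) →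
      ∀ G : Finset ι, G.Nonempty → ∀ P : (ι → ℤ) → Finset ℂ,
      (∀ ξ ξ' : ι → ℤ, (∀ i, i ∉ G → ξ i = ξ' i) → P ξ = P ξ') → (∀ ξ, (0 : ℂ) ∉ P ξ) →
      ((Fintype.piFinset D).filter fun ξ => (P ξ).Nonempty ∧
        ((AB (P ξ) (vals f (pt s ξ G))).card : ℝ) <
          c * (((P ξ).card : ℝ) * G.card) ^ (1 - ε)).card * K ^ G.card ≤ ∏ i, (D i).card := by
  obtain ⟨n, hn, h⟩ := oneSided ε hε hε1 d
  refine ⟨n, hn, fun w => ?_⟩
  obtain ⟨c, hc, h⟩ := h w
  refine ⟨c, hc, ?_⟩
  intro K hK f hf hfd ι _ _ s hs D hD G hG P hP hP0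
  have hpos : ∀ i, 0 < (D i).card := fun i =>
    lt_of_lt_of_le (Nat.mul_pos hn (by positivity)) (hD i).1
  refine condition D G K _ (fun i _ => hpos i) fun ξ₀ _ => ?_
  have hagree : ∀ ξ ∈ Fintype.piFinset fun i => if i ∈ G then D i else {ξ₀ i}, P ξ = P ξ₀ := by
    intro ξ hξ
    rw [Fintype.mem_piFinset] at hξ
    refine hP ξ ξ₀ fun i hi => ?_
    have := hξ i
    rw [if_neg hi, mem_singleton] at this
    exact this
  by_cases hne : (P ξ₀).Nonempty
  · have h1 := h K hK f hf hfd ι s hs (fun i => if i ∈ G then D i else {ξ₀ i}) G hG (fun i hi => by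
      simp only [hi, if_true]
      exact hD i) (P ξ₀) hne (hP0 ξ₀)
    rw [card_pi_ite] at h1
    refine le_trans (Nat.mul_le_mul_right _ (card_le_card fun ξ hξ => ?_)) h1
    rw [mem_filter] at hξ ⊢
    refine ⟨hξ.1, ?_⟩
    have h2 := hξ.2.2
    rwa [hagree ξ hξ.1] at h2
  · have h1 : ((Fintype.piFinset fun i => if i ∈ G then D i else {ξ₀ i}).filter fun ξ =>
        (P ξ).Nonempty ∧ ((AB (P ξ) (vals f (pt s ξ G))).card : ℝ) <
          c * (((P ξ).card : ℝ) * G.card) ^ (1 - ε)) = ∅ := by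
      rw [filter_eq_empty_iff]
      intro ξ hξ h2
      rw [hagree ξ hξ] at h2
      exact hne h2.1
    rw [h1, card_empty, zero_mul]
    exact Nat.zero_le _

/-- the product set of the first `j` parts -/
noncomputable def PP (f : Polynomial ℤ) (s ξ : ι → ℤ) (G : ℕ → Finset ι) : ℕ → Finset ℂ
  | 0 => {1}
  | j + 1 => AB (PP f s ξ G j) (vals f (pt s ξ (G j)))

omit [Fintype ι] [DecidableEq ι] in
lemma PP_zero (f : Polynomial ℤ) (s ξ : ι → ℤ) (G : ℕ → Finset ι) (j : ℕ) :
    (0 : ℂ) ∉ PP f s ξ G j := by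
  induction j with
  | zero => simp [PP]
  | succ j ih =>
    intro h
    unfold PP AB at h
    obtain ⟨q, hq, hq0⟩ := mem_image.1 h
    obtain ⟨hq1, hq2⟩ := mem_product.1 hq
    rcases mul_eq_zero.1 hq0 with h1 | h1
    · rw [h1] at hq1; exact ih hq1
    · have : q.2 = 0 := by exact_mod_cast h1
      unfold vals at hq2
      rw [this] at hq2
      exact notMem_erase _ _ hq2

omit [Fintype ι] [DecidableEq ι] in
lemma PP_congr (f : Polynomial ℤ) (s ξ ξ' : ι → ℤ) (G : ℕ → Finset ι) (j : ℕ)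
    (h : ∀ i < j, ∀ x ∈ G i, ξ x = ξ' x) : PP f s ξ G j = PP f s ξ' G j := by
  induction j with
  | zero => simp [PP]
  | succ j ih =>
    unfold PP
    rw [ih fun i hi => h i (by omega)]
    have : pt s ξ (G j) = pt s ξ' (G j) := by
      unfold pt
      exact image_congr fun x hx => by simp only [h j (by omega) x hx]
    rw [this]

omit [Fintype ι] [DecidableEq ι] in
lemma PP_sub (f : Polynomial ℤ) (s ξ : ι → ℤ) (G : ℕ → Finset ι) (S : Finset ι) (j : ℕ)
    (h : ∀ i < j, G i ⊆ S) :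
    PP f s ξ G j ⊆ (pk j (vals f (pt s ξ S))).image fun z : ℤ => (z : ℂ) := by
  induction j with
  | zero =>
    intro z hz
    unfold PP at hz
    rw [mem_singleton] at hz
    refine mem_image.2 ⟨1, ?_, by rw [hz]; simp⟩
    unfold pk
    refine mem_image.2 ⟨fun i => i.elim0, ?_, by simp⟩
    rw [Fintype.mem_piFinset]
    exact fun i => i.elim0
  | succ j ih =>
    intro z hz
    unfold PP AB at hz
    obtain ⟨q, hq, rfl⟩ := mem_image.1 hz
    obtain ⟨hq1, hq2⟩ := mem_product.1 hq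
    obtain ⟨y, hy, hy2⟩ := mem_image.1 (ih (fun i hi => h i (by omega)) hq1)
    unfold pk at hy
    obtain ⟨u, hu, hu2⟩ := mem_image.1 hy
    rw [Fintype.mem_piFinset] at hu
    refine mem_image.2 ⟨y * q.2, ?_, by rw [← hy2]; push_cast; ring⟩
    unfold pk
    refine mem_image.2 ⟨Fin.snoc u q.2, ?_, ?_⟩
    · rw [Fintype.mem_piFinset]
      intro i
      refine Fin.lastCases ?_ (fun i => ?_) i
      · rw [Fin.snoc_last]
        exact vals_mono f (pt_mono s ξ (h j (by omega))) hq2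
      · rw [Fin.snoc_castSucc]
        exact hu i
    · rw [Fin.prod_univ_castSucc]
      simp only [Fin.snoc_castSucc, Fin.snoc_last]
      rw [hu2]

omit [Fintype ι] [DecidableEq ι] in
/-- growth along the parts -/
lemma PP_lower (f : Polynomial ℤ) (s ξ : ι → ℤ) (G : ℕ → Finset ι) (k : ℕ) (ε c M : ℝ)
    (hε : 0 < ε) (hε1 : ε ≤ 1) (hc : 0 < c) (hc1 : c ≤ 1) (hM : 1 ≤ M)
    (hG : ∀ j < k, M ≤ (G j).card)
    (h : ∀ j < k, ¬ ((PP f s ξ G j).Nonempty ∧
      ((AB (PP f s ξ G j) (vals f (pt s ξ (G j)))).card : ℝ) <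
        c * (((PP f s ξ G j).card : ℝ) * (G j).card) ^ (1 - ε))) (j : ℕ) (hj : j ≤ k) :
    (PP f s ξ G j).Nonempty ∧ c ^ j * M ^ ((j : ℝ) - j ^ 2 * ε) ≤ (PP f s ξ G j).card := by
  induction j with
  | zero => refine ⟨?_, ?_⟩ <;> simp [PP]
  | succ j ih =>
    obtain ⟨h1, h2⟩ := ih (by omega)
    have h3 := h j (by omega)
    push Not at h3
    have h4 := h3 h1
    have hMp : (0 : ℝ) < M := by linarith
    have h5 : c ^ (j + 1) * M ^ (((j + 1 : ℕ) : ℝ) - ((j + 1 : ℕ) : ℝ) ^ 2 * ε) ≤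
        c * (((PP f s ξ G j).card : ℝ) * (G j).card) ^ (1 - ε) := by
      calc c ^ (j + 1) * M ^ (((j + 1 : ℕ) : ℝ) - ((j + 1 : ℕ) : ℝ) ^ 2 * ε)
          ≤ c ^ (j + 1) * M ^ (((j : ℝ) - j ^ 2 * ε + 1) * (1 - ε)) := by
            refine mul_le_mul_of_nonneg_left (Real.rpow_le_rpow_of_exponent_le hM ?_) (by positivity)
            push_cast
            have : (0 : ℝ) ≤ j := Nat.cast_nonneg j
            nlinarith [mul_nonneg this hε.le, mul_nonneg (mul_nonneg this this) (sq_nonneg ε)]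
        _ = c * (c ^ j * M ^ (((j : ℝ) - j ^ 2 * ε + 1) * (1 - ε))) := by rw [pow_succ]; ring
        _ ≤ c * ((c ^ j) ^ (1 - ε) * M ^ (((j : ℝ) - j ^ 2 * ε + 1) * (1 - ε))) := by
            refine mul_le_mul_of_nonneg_left (mul_le_mul_of_nonneg_right ?_ (by positivity)) hc.le
            calc c ^ j = (c ^ j) ^ (1 : ℝ) := (Real.rpow_one _).symm
              _ ≤ (c ^ j) ^ (1 - ε) :=
                  Real.rpow_le_rpow_of_exponent_ge (by positivity) (pow_le_one₀ hc.le hc1)
                    (by linarith)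
        _ = c * ((c ^ j * M ^ ((j : ℝ) - j ^ 2 * ε)) * M) ^ (1 - ε) := by
            rw [Real.mul_rpow (by positivity) hMp.le, Real.mul_rpow (by positivity) (by positivity),
              ← Real.rpow_mul hMp.le, mul_assoc, ← Real.rpow_add hMp]
            congr 3
            ring
        _ ≤ c * (((PP f s ξ G j).card : ℝ) * (G j).card) ^ (1 - ε) := by
            refine mul_le_mul_of_nonneg_left (Real.rpow_le_rpow (by positivity) ?_ (by linarith))
              hc.le
            exact mul_le_mul h2 (hG j (by omega)) hMp.le (by positivity)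
    have h6 : c ^ (j + 1) * M ^ (((j + 1 : ℕ) : ℝ) - ((j + 1 : ℕ) : ℝ) ^ 2 * ε) ≤
        (PP f s ξ G (j + 1)).card := h5.trans h4
    refine ⟨?_, h6⟩
    rw [← card_pos]
    have h7 : (0 : ℝ) < (PP f s ξ G (j + 1)).card := lt_of_lt_of_le (by positivity) h6
    exact_mod_cast h7

omit [Fintype ι] in
/-- disjoint subsets of equal size -/
lemma exists_parts (m : ℕ) (k : ℕ) : ∀ S : Finset ι, k * m ≤ S.card →
    ∃ G : ℕ → Finset ι, (∀ j < k, G j ⊆ S ∧ (G j).card = m) ∧
      ∀ i j, i < j → j < k → Disjoint (G i) (G j) := by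
  induction k with
  | zero => intro S _; exact ⟨fun _ => ∅, fun j hj => absurd hj (by omega), fun i j _ hj =>
      absurd hj (by omega)⟩
  | succ k ih =>
    intro S hS
    obtain ⟨T, hTS, hT⟩ := exists_subset_card_eq (show m ≤ S.card by nlinarith)
    have h1 : k * m ≤ (S \ T).card := by
      rw [card_sdiff_of_subset hTS, hT]
      have : (k + 1) * m = k * m + m := by ring
      omega
    obtain ⟨G, hG1, hG2⟩ := ih (S \ T) h1
    refine ⟨Function.update G k T, fun j hj => ?_, fun i j hij hj => ?_⟩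
    · by_cases hjk : j = k
      · subst hjk; rw [Function.update_self]; exact ⟨hTS, hT⟩
      · rw [Function.update_of_ne hjk]
        exact ⟨(hG1 j (by omega)).1.trans sdiff_subset, (hG1 j (by omega)).2⟩
    · rw [Function.update_of_ne (show i ≠ k by omega)]
      by_cases hjk : j = k
      · subst hjk
        rw [Function.update_self]
        exact disjoint_of_subset_left (hG1 i hij).1 sdiff_disjoint
      · rw [Function.update_of_ne hjk]
        exact hG2 i j hij (by omega)

lemma pow_of_share {α : ℝ} (hα : 0 < α) (M N k m : ℕ) (hM : 1 ≤ M) (hm : 1 / α ≤ m)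
    (hk : α * N ≤ k) : M ^ N ≤ (M ^ m) ^ k := by
  rw [← pow_mul]
  refine Nat.pow_le_pow_right hM ?_
  have h1 : (N : ℝ) ≤ m * k := by
    calc (N : ℝ) = 1 / α * (α * N) := by field_simp
      _ ≤ m * k := mul_le_mul hm hk (by positivity) (by positivity)
  exact_mod_cast h1

end Pool.Agent.K3h11.BP
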