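import Mathlib
import Pool.Agent.K3h11.BP.Fold

/-!
# Bounded perturbations: iterated product sets of all large parts at once
-/

set_option autoImplicit false

namespace Pool.Agent.K3h11.BP

open Finset Pool.Agent.R849.RF Pool.Agent.R849.SV Pool.Agent.Y359.PE

/-- an exponent that makes the sets of shifts large enough -/
lemma exponent (n k m K : ℕ) (hK : 2 ≤ K) :
    n * (2 * (2 * k * 2 ^ k * K) ^ m) ^ (2 * n) ≤ K ^ (n + (1 + (2 * k + 2) * m) * (2 * n)) := by
  have h2 : ∀ j : ℕ, j ≤ K ^ j := fun j =>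
    (Nat.lt_two_pow_self).le.trans (Nat.pow_le_pow_left hK j)
  have h3 : 2 * k * 2 ^ k * K ≤ K ^ (2 * k + 2) := by
    calc 2 * k * 2 ^ k * K ≤ K * K ^ k * K ^ k * K := by
          gcongr
          exact h2 k
      _ = K ^ (2 * k + 2) := by ring
  calc n * (2 * (2 * k * 2 ^ k * K) ^ m) ^ (2 * n)
      ≤ K ^ n * (K * (K ^ (2 * k + 2)) ^ m) ^ (2 * n) := by
        gcongr
        exact h2 n
    _ = K ^ (n + (1 + (2 * k + 2) * m) * (2 * n)) := by
        rw [pow_add K n, pow_mul K (1 + (2 * k + 2) * m), pow_add K 1, pow_one,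
          pow_mul K (2 * k + 2) m]

/-- the tuple as a sequence -/
def seqOf {ι : Type} {k : ℕ} (T : Fin k → Finset ι) : ℕ → Finset ι :=
  fun j => if h : j < k then T ⟨j, h⟩ else ∅

theorem kfold (ε α : ℝ) (hε : 0 < ε) (hε1 : ε ≤ 1) (hα : 0 < α) (hα1 : α ≤ 1) (d k : ℕ)
    (hk : 1 ≤ k) :
    ∃ e : ℕ, ∀ w : ℕ, ∃ c : ℝ, 0 < c ∧ ∀ K : ℕ, 2 ≤ K →
      ∀ f : Polynomial ℤ, 1 ≤ f.natDegree → f.natDegree ≤ d →
      ∀ (ι : Type) [Fintype ι] [Nonempty ι] [DecidableEq ι] (s : ι → ℤ), Function.Injective s →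
      ∀ (D : ι → Finset ℤ), (∀ i, K ^ e ≤ (D i).card ∧ ∀ t ∈ D i, |t| ≤ w) →
      ∀ bad : Finset (ι → ℤ), (∀ ξ ∈ bad, ξ ∈ Fintype.piFinset D ∧ ∃ S : Finset ι,
        α * Fintype.card ι ≤ S.card ∧
        ((pk k (vals f (pt s ξ S))).card : ℝ) < c * (Fintype.card ι : ℝ) ^ ((k : ℝ) - ε)) →
      bad.card * K ^ Fintype.card ι ≤ ∏ i, (D i).card := by
  classical
  have hkr : (1 : ℝ) ≤ k := by exact_mod_cast hk
  set ε' : ℝ := ε / k ^ 2 with hε'
  have hε'0 : 0 < ε' := by positivity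
  have hε'1 : ε' ≤ 1 := by
    rw [hε', div_le_one (by positivity)]
    nlinarith
  obtain ⟨n, hn, hstep⟩ := stepBad ε' hε'0 hε'1 d
  set α' : ℝ := α / (2 * k) with hα'
  have hα'0 : 0 < α' := by positivity
  have hα'1 : α' ≤ 1 := by
    rw [hα', div_le_one (by positivity)]
    nlinarith
  have hα'α : α' ≤ α := by
    rw [hα']
    exact div_le_self hα.le (by nlinarith)
  set m : ℕ := ⌈1 / α'⌉₊ with hm
  refine ⟨n + (1 + (2 * k + 2) * m) * (2 * n), fun w => ?_⟩
  obtain ⟨c₀, hc₀, hstep⟩ := hstep w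
  set c₁ : ℝ := min c₀ 1 with hc₁
  have hc₁0 : 0 < c₁ := by positivity
  have hc₁1 : c₁ ≤ 1 := min_le_right _ _
  set N₁ : ℝ := 2 * k / α with hN₁
  have hN₁p : 0 < N₁ := by positivity
  refine ⟨min (c₁ ^ k * α' ^ k) (1 / (1 + N₁) ^ k), by positivity, ?_⟩
  intro K hK f hf hfd ι _ _ _ s hs D hD bad hbad
  set N := Fintype.card ι with hN
  have hNp : 0 < N := Fintype.card_pos
  have hNr : (1 : ℝ) ≤ N := by exact_mod_cast hNp
  set M₀ : ℕ := 2 * k * 2 ^ k * K with hM₀
  have hM₀1 : 1 ≤ M₀ := by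
    have : 0 < M₀ := by positivity
    omega
  have hD' : ∀ i, n * (2 * M₀ ^ m) ^ (2 * n) ≤ (D i).card ∧ ∀ t ∈ D i, |t| ≤ w := fun i =>
    ⟨(exponent n k m K hK).trans (hD i).1, (hD i).2⟩
  have hstep' := hstep (M₀ ^ m) (Nat.one_le_pow _ _ (by omega)) f hf hfd ι s hs D hD'
  -- the two kinds of bad events
  set E₀ : Finset ι → Finset (ι → ℤ) := fun S => (Fintype.piFinset D).filter fun ξ =>
    ({1} : Finset ℂ).Nonempty ∧ ((AB {1} (vals f (pt s ξ S))).card : ℝ) <
      c₀ * ((({1} : Finset ℂ).card : ℝ) * S.card) ^ (1 - ε') with hE₀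
  set E₁ : (Fin k → Finset ι) → ℕ → Finset (ι → ℤ) := fun T j =>
    (Fintype.piFinset D).filter fun ξ => (PP f s ξ (seqOf T) j).Nonempty ∧
      ((AB (PP f s ξ (seqOf T) j) (vals f (pt s ξ (seqOf T j)))).card : ℝ) <
        c₀ * (((PP f s ξ (seqOf T) j).card : ℝ) * (seqOf T j).card) ^ (1 - ε') with hE₁
  set Good : Finset (Fin k → Finset ι) := univ.filter fun T =>
    (∀ j, α' * N ≤ (T j).card) ∧ ∀ i j, i < j → Disjoint (T i) (T j) with hGood
  have hcover : bad ⊆ ((univ.filter fun S : Finset ι => α * N ≤ S.card).biUnion E₀) ∪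
      (Good.biUnion fun T => (range k).biUnion fun j => E₁ T j) := by
    intro ξ hξ
    obtain ⟨h2, S, hS, h3⟩ := hbad ξ hξ
    rw [mem_union]
    by_cases hbig : 2 * k ≤ α * N
    · right
      have hM1 : 1 ≤ α' * N := by
        rw [hα', div_mul_eq_mul_div, le_div_iff₀ (by positivity)]
        linarith
      set mm : ℕ := ⌈α' * N⌉₊ with hmm
      have h4 : (mm : ℝ) < α' * N + 1 := Nat.ceil_lt_add_one (by positivity)
      have h5 : ((k * mm : ℕ) : ℝ) ≤ S.card := by
        refine le_trans ?_ hS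
        push_cast
        have : (k : ℝ) * mm ≤ k * (2 * (α' * N)) :=
          mul_le_mul_of_nonneg_left (by linarith) (by positivity)
        refine this.trans (le_of_eq ?_)
        rw [hα']
        field_simp
      obtain ⟨G, hG1, hG2⟩ := exists_parts mm k S (by exact_mod_cast h5)
      by_contra hcon
      have hT : (fun j : Fin k => G j) ∈ Good := by
        refine mem_filter.2 ⟨mem_univ _, fun j => ?_, fun i j hij => hG2 i j hij j.2⟩
        rw [(hG1 j j.2).2]
        exact Nat.le_ceil _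
      have hseq : ∀ j < k, seqOf (fun j : Fin k => G j) j = G j := by
        intro j hj
        unfold seqOf
        rw [dif_pos hj]
      have h6 : ∀ j < k, ¬ ((PP f s ξ (seqOf fun j : Fin k => G j) j).Nonempty ∧
          ((AB (PP f s ξ (seqOf fun j : Fin k => G j) j)
            (vals f (pt s ξ (seqOf (fun j : Fin k => G j) j)))).card : ℝ) <
          c₁ * (((PP f s ξ (seqOf fun j : Fin k => G j) j).card : ℝ) *
            (seqOf (fun j : Fin k => G j) j).card) ^ (1 - ε')) := by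
        rintro j hj ⟨h7, h8⟩
        apply hcon
        refine mem_biUnion.2 ⟨_, hT, mem_biUnion.2 ⟨j, mem_range.2 hj, mem_filter.2 ⟨h2, h7, ?_⟩⟩⟩
        refine lt_of_lt_of_le h8 (mul_le_mul_of_nonneg_right (min_le_left _ _) (by positivity))
      obtain ⟨-, h7⟩ := PP_lower f s ξ (seqOf fun j : Fin k => G j) k ε' c₁ (α' * N) hε'0 hε'1
        hc₁0 hc₁1 hM1 (fun j hj => by
          rw [hseq j hj, (hG1 j hj).2]; exact Nat.le_ceil _) h6 k le_rfl
      have h8 : ((PP f s ξ (seqOf fun j : Fin k => G j) k).card : ℝ) ≤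
          (pk k (vals f (pt s ξ S))).card := by
        have := PP_sub f s ξ (seqOf fun j : Fin k => G j) S k
          (fun j hj => by rw [hseq j hj]; exact (hG1 j hj).1)
        exact_mod_cast (card_le_card this).trans card_image_le
      have h9 : (k : ℝ) - k ^ 2 * ε' = k - ε := by
        rw [hε']
        field_simp
      rw [h9] at h7
      have h10 : min (c₁ ^ k * α' ^ k) (1 / (1 + N₁) ^ k) * (N : ℝ) ^ ((k : ℝ) - ε) ≤
          c₁ ^ k * (α' * N) ^ ((k : ℝ) - ε) := by
        calc min (c₁ ^ k * α' ^ k) (1 / (1 + N₁) ^ k) * (N : ℝ) ^ ((k : ℝ) - ε)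
            ≤ c₁ ^ k * α' ^ k * (N : ℝ) ^ ((k : ℝ) - ε) :=
              mul_le_mul_of_nonneg_right (min_le_left _ _) (by positivity)
          _ ≤ c₁ ^ k * α' ^ ((k : ℝ) - ε) * (N : ℝ) ^ ((k : ℝ) - ε) := by
              refine mul_le_mul_of_nonneg_right (mul_le_mul_of_nonneg_left ?_ (by positivity))
                (by positivity)
              calc α' ^ k = α' ^ (k : ℝ) := (Real.rpow_natCast _ _).symm
                _ ≤ α' ^ ((k : ℝ) - ε) :=
                    Real.rpow_le_rpow_of_exponent_ge hα'0 hα'1 (by linarith)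
          _ = c₁ ^ k * (α' * N) ^ ((k : ℝ) - ε) := by
              rw [Real.mul_rpow hα'0.le (by positivity), mul_assoc]
      linarith
    · left
      push Not at hbig
      have hN1 : (N : ℝ) ≤ N₁ := by
        rw [hN₁, le_div_iff₀ hα]
        linarith
      have h4 : min (c₁ ^ k * α' ^ k) (1 / (1 + N₁) ^ k) * (N : ℝ) ^ ((k : ℝ) - ε) ≤ 1 := by
        calc min (c₁ ^ k * α' ^ k) (1 / (1 + N₁) ^ k) * (N : ℝ) ^ ((k : ℝ) - ε)
            ≤ 1 / (1 + N₁) ^ k * (1 + N₁) ^ k := by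
              refine mul_le_mul (min_le_right _ _) ?_ (by positivity) (by positivity)
              calc (N : ℝ) ^ ((k : ℝ) - ε) ≤ (N : ℝ) ^ (k : ℝ) :=
                    Real.rpow_le_rpow_of_exponent_le hNr (by linarith)
                _ = (N : ℝ) ^ k := Real.rpow_natCast _ _
                _ ≤ (1 + N₁) ^ k := pow_le_pow_left₀ (by positivity) (by linarith) k
          _ = 1 := by field_simp
      have h5 : (pk k (vals f (pt s ξ S))).card = 0 := by
        have : ((pk k (vals f (pt s ξ S))).card : ℝ) < 1 := lt_of_lt_of_le h3 h4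
        have : (pk k (vals f (pt s ξ S))).card < 1 := by exact_mod_cast this
        omega
      have h6 : vals f (pt s ξ S) = ∅ := by
        by_contra hne
        have := card_pos.2 (pk_nonempty (k := k) (nonempty_iff_ne_empty.2 hne))
        omega
      have hSp : (0 : ℝ) < S.card := lt_of_lt_of_le (by positivity) hS
      refine mem_biUnion.2 ⟨S, mem_filter.2 ⟨mem_univ _, hS⟩, mem_filter.2 ⟨h2, by simp, ?_⟩⟩
      rw [h6]
      unfold AB
      simp only [product_empty, image_empty, card_empty, Nat.cast_zero, card_singleton,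
        Nat.cast_one, one_mul]
      positivity
  have hE₀c : ∀ S ∈ univ.filter fun S : Finset ι => α * N ≤ S.card,
      (E₀ S).card * M₀ ^ N ≤ ∏ i, (D i).card := by
    intro S hS
    have hS2 := (mem_filter.1 hS).2
    have hSne : S.Nonempty := by
      rw [← card_pos]
      have : (0 : ℝ) < S.card := lt_of_lt_of_le (by positivity) hS2
      exact_mod_cast this
    refine le_trans (Nat.mul_le_mul_left _ (pow_of_share hα'0 M₀ N S.card m hM₀1 (Nat.le_ceil _)
      (le_trans (mul_le_mul_of_nonneg_right hα'α (by positivity)) hS2))) ?_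
    exact hstep' S hSne (fun _ => {1}) (fun _ _ _ => rfl) (fun _ => by simp)
  have hE₁c : ∀ T ∈ Good, ∀ j ∈ range k, (E₁ T j).card * M₀ ^ N ≤ ∏ i, (D i).card := by
    intro T hT j hj
    have hj' := mem_range.1 hj
    obtain ⟨hT1, hT2⟩ := (mem_filter.1 hT).2
    have hs1 : seqOf T j = T ⟨j, hj'⟩ := by unfold seqOf; rw [dif_pos hj']
    have hTne : (seqOf T j).Nonempty := by
      rw [hs1, ← card_pos]
      have : (0 : ℝ) < (T ⟨j, hj'⟩).card := lt_of_lt_of_le (by positivity) (hT1 _)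
      exact_mod_cast this
    refine le_trans (Nat.mul_le_mul_left _ (pow_of_share hα'0 M₀ N (seqOf T j).card m hM₀1
      (Nat.le_ceil _) (by rw [hs1]; exact hT1 _))) ?_
    refine hstep' (seqOf T j) hTne (fun ξ => PP f s ξ (seqOf T) j) ?_
      (fun ξ => PP_zero f s ξ _ j)
    intro ξ ξ' h4
    refine PP_congr f s ξ ξ' _ j fun i hi x hx => h4 x ?_
    have hi' : i < k := by omega
    have hs2 : seqOf T i = T ⟨i, hi'⟩ := by unfold seqOf; rw [dif_pos hi']
    rw [hs1]
    rw [hs2] at hx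
    exact disjoint_left.1 (hT2 ⟨i, hi'⟩ ⟨j, hj'⟩ hi) hx
  have h1 : bad.card * M₀ ^ N ≤ (2 ^ N + (2 ^ N) ^ k * k) * ∏ i, (D i).card := by
    have h2 : bad.card ≤ ∑ S ∈ univ.filter fun S : Finset ι => α * N ≤ S.card, (E₀ S).card +
        ∑ T ∈ Good, ∑ j ∈ range k, (E₁ T j).card := by
      refine (card_le_card hcover).trans ((card_union_le _ _).trans ?_)
      refine Nat.add_le_add card_biUnion_le (card_biUnion_le.trans ?_)
      exact sum_le_sum fun T _ => card_biUnion_le
    calc bad.card * M₀ ^ N ≤ (∑ S ∈ univ.filter fun S : Finset ι => α * N ≤ S.card, (E₀ S).card +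
        ∑ T ∈ Good, ∑ j ∈ range k, (E₁ T j).card) * M₀ ^ N := Nat.mul_le_mul_right _ h2
      _ = ∑ S ∈ univ.filter fun S : Finset ι => α * N ≤ S.card, (E₀ S).card * M₀ ^ N +
        ∑ T ∈ Good, ∑ j ∈ range k, (E₁ T j).card * M₀ ^ N := by
          rw [add_mul, sum_mul, sum_mul]
          congr 1
          exact sum_congr rfl fun T _ => by rw [sum_mul]
      _ ≤ ∑ _S ∈ univ.filter fun S : Finset ι => α * N ≤ S.card, ∏ i, (D i).card +
        ∑ _T ∈ Good, ∑ _j ∈ range k, ∏ i, (D i).card :=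
          Nat.add_le_add (sum_le_sum hE₀c) (sum_le_sum fun T hT => sum_le_sum (hE₁c T hT))
      _ = ((univ.filter fun S : Finset ι => α * N ≤ S.card).card + Good.card * k) *
          ∏ i, (D i).card := by
          simp only [sum_const, smul_eq_mul, card_range]
          ring
      _ ≤ (2 ^ N + (2 ^ N) ^ k * k) * ∏ i, (D i).card := by
          refine Nat.mul_le_mul_right _ (Nat.add_le_add ?_ (Nat.mul_le_mul_right _ ?_))
          · refine (card_filter_le _ _).trans ?_
            rw [card_univ, Fintype.card_finset]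
          · refine (card_filter_le _ _).trans ?_
            rw [card_univ, Fintype.card_fun, Fintype.card_finset, Fintype.card_fin]
  have h2 : 2 ^ N + (2 ^ N) ^ k * k ≤ (2 * k * 2 ^ k) ^ N := by
    have e1 : (2 * k * 2 ^ k) ^ N = (2 * k) ^ N * (2 ^ N) ^ k := by
      rw [mul_pow, ← pow_mul, ← pow_mul, mul_comm k N]
    have e2 : 2 * k ≤ (2 * k) ^ N := Nat.le_self_pow (by omega) _
    have e3 : 2 ^ N ≤ (2 ^ N) ^ k := Nat.le_self_pow (by omega) _
    rw [e1]
    calc 2 ^ N + (2 ^ N) ^ k * k ≤ (2 ^ N) ^ k * 1 + (2 ^ N) ^ k * k := by omega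
      _ ≤ (2 ^ N) ^ k * (2 * k) := by rw [← mul_add]; exact Nat.mul_le_mul_left _ (by omega)
      _ ≤ (2 ^ N) ^ k * (2 * k) ^ N := Nat.mul_le_mul_left _ e2
      _ = _ := by ring
  have h3 : (2 * k * 2 ^ k) ^ N * (bad.card * K ^ N) ≤ (2 * k * 2 ^ k) ^ N * ∏ i, (D i).card := by
    calc (2 * k * 2 ^ k) ^ N * (bad.card * K ^ N) = bad.card * M₀ ^ N := by
          rw [hM₀, mul_pow]; ring
      _ ≤ _ := h1.trans (Nat.mul_le_mul_right _ h2)
  exact Nat.le_of_mul_le_mul_left h3 (by positivity)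

end Pool.Agent.K3h11.BP
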