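import Mathlib
import Pool.Agent.K3h11.BP.KFold

/-!
# Bounded perturbations: one exceptional set for all conclusions
-/

set_option autoImplicit false

namespace Pool.Agent.K3h11.BP

open Finset Pool.Agent.R849.RF Pool.Agent.R849.SV Pool.Agent.Y359.PE
open scoped Pointwise

lemma AB_cast_le (X Y : Finset ℤ) :
    (AB (X.image fun z : ℤ => (z : ℂ)) Y).card ≤ (X * Y).card := by
  classical
  have : AB (X.image fun z : ℤ => (z : ℂ)) Y ⊆ (X * Y).image fun z : ℤ => (z : ℂ) := by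
    intro z hz
    unfold AB at hz
    obtain ⟨q, hq, rfl⟩ := mem_image.1 hz
    obtain ⟨hq1, hq2⟩ := mem_product.1 hq
    obtain ⟨x, hx, hx2⟩ := mem_image.1 hq1
    exact mem_image.2 ⟨x * q.2, mul_mem_mul hx hq2, by rw [← hx2]; push_cast; ring⟩
  exact (card_le_card this).trans card_image_le

theorem main (ε α : ℝ) (hε : 0 < ε) (hε1 : ε ≤ 1) (hα : 0 < α) (d k : ℕ) (hk : 1 ≤ k) :
    ∃ e : ℕ, ∀ w : ℕ, ∃ c : ℝ, 0 < c ∧ ∀ K : ℕ, 2 ≤ K →
      ∀ f : Polynomial ℤ, 1 ≤ f.natDegree → f.natDegree ≤ d →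
      ∀ (ι : Type) [Fintype ι] [Nonempty ι] [DecidableEq ι] (s : ι → ℤ), Function.Injective s →
      ∀ (D : ι → Finset ℤ), (∀ i, K ^ e ≤ (D i).card ∧ ∀ t ∈ D i, |t| ≤ w) →
      ∃ E : Finset (ι → ℤ), E.card * K ^ Fintype.card ι ≤ ∏ i, (D i).card ∧
      ∀ ξ ∈ Fintype.piFinset D, ξ ∉ E → ∀ S : Finset ι, α * Fintype.card ι ≤ S.card →
        c * (Fintype.card ι : ℝ) ^ ((k : ℝ) - ε) ≤ (pk k (vals f (pt s ξ S))).card ∧
        (∀ B : Finset ℂ, B.Nonempty → (0 : ℂ) ∉ B →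
          c * ((B.card : ℝ) * Fintype.card ι) ^ (1 - ε) ≤ (AB B (vals f (pt s ξ S))).card) ∧
        ∀ T : Finset ι, α * Fintype.card ι ≤ T.card →
          c * (Fintype.card ι : ℝ) ^ (2 - ε) ≤
            ((vals f (pt s ξ S) * vals f (pt s ξ T)).card : ℕ) := by
  classical
  set α₁ : ℝ := min α 1 with hα₁
  have hα₁0 : 0 < α₁ := by positivity
  have hα₁1 : α₁ ≤ 1 := min_le_right _ _
  set ε₀ : ℝ := ε / 4 with hε₀
  have hε₀0 : 0 < ε₀ := by positivity
  have hε₀1 : ε₀ ≤ 1 := by rw [hε₀]; linarith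
  set k₀ : ℕ := ⌈1 / ε₀⌉₊ with hk₀
  have hk₀r : 1 / ε₀ ≤ k₀ := Nat.le_ceil _
  have hk₀1 : 1 ≤ k₀ := Nat.one_le_ceil_iff.2 (by positivity)
  obtain ⟨e₁, h₁⟩ := kfold ε α₁ hε hε1 hα₁0 hα₁1 d k hk
  obtain ⟨e₂, h₂⟩ := kfold ε₀ α₁ hε₀0 hε₀1 hα₁0 hα₁1 d k₀ hk₀1
  refine ⟨2 * (e₁ + e₂), fun w => ?_⟩
  obtain ⟨c₁, hc₁, h₁⟩ := h₁ w
  obtain ⟨c₂, hc₂, h₂⟩ := h₂ w
  set c₃ : ℝ := min ((c₂ / 2) ^ (1 / (k₀ : ℝ))) 1 with hc₃
  have hc₃0 : 0 < c₃ := by positivity
  have hc₃1 : c₃ ≤ 1 := min_le_right _ _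
  refine ⟨min c₁ (c₃ ^ 2), by positivity, ?_⟩
  intro K hK f hf hfd ι _ _ _ s hs D hD
  set N := Fintype.card ι with hN
  have hNp : 0 < N := Fintype.card_pos
  have hNr : (1 : ℝ) ≤ N := by exact_mod_cast hNp
  set E₁ := (Fintype.piFinset D).filter fun ξ => ∃ S : Finset ι, α₁ * N ≤ S.card ∧
    ((pk k (vals f (pt s ξ S))).card : ℝ) < c₁ * (N : ℝ) ^ ((k : ℝ) - ε) with hE₁
  set E₂ := (Fintype.piFinset D).filter fun ξ => ∃ S : Finset ι, α₁ * N ≤ S.card ∧
    ((pk k₀ (vals f (pt s ξ S))).card : ℝ) < c₂ * (N : ℝ) ^ ((k₀ : ℝ) - ε₀) with hE₂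
  have hpow : ∀ j ≤ e₁ + e₂, (2 * K) ^ j ≤ K ^ (2 * (e₁ + e₂)) := by
    intro j hj
    calc (2 * K) ^ j ≤ (K ^ 2) ^ j := Nat.pow_le_pow_left (by nlinarith) _
      _ = K ^ (2 * j) := by rw [← pow_mul]
      _ ≤ K ^ (2 * (e₁ + e₂)) := Nat.pow_le_pow_right (by omega) (by omega)
  have b₁ := h₁ (2 * K) (by omega) f hf hfd ι s hs D
    (fun i => ⟨(hpow e₁ (by omega)).trans (hD i).1, (hD i).2⟩) E₁ (fun ξ hξ => mem_filter.1 hξ)
  have b₂ := h₂ (2 * K) (by omega) f hf hfd ι s hs D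
    (fun i => ⟨(hpow e₂ (by omega)).trans (hD i).1, (hD i).2⟩) E₂ (fun ξ hξ => mem_filter.1 hξ)
  refine ⟨E₁ ∪ E₂, ?_, ?_⟩
  · have h3 : (E₁ ∪ E₂).card * (2 * K) ^ N ≤ 2 * ∏ i, (D i).card := by
      calc (E₁ ∪ E₂).card * (2 * K) ^ N ≤ (E₁.card + E₂.card) * (2 * K) ^ N :=
            Nat.mul_le_mul_right _ (card_union_le _ _)
        _ ≤ _ := by rw [add_mul, two_mul (∏ i, (D i).card)]; exact Nat.add_le_add b₁ b₂
    have h4 : 2 ≤ 2 ^ N := Nat.le_self_pow (by omega) _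
    have h5 : 2 * ((E₁ ∪ E₂).card * K ^ N) ≤ 2 * ∏ i, (D i).card := by
      calc 2 * ((E₁ ∪ E₂).card * K ^ N) ≤ 2 ^ N * ((E₁ ∪ E₂).card * K ^ N) :=
            Nat.mul_le_mul_right _ h4
        _ = (E₁ ∪ E₂).card * (2 * K) ^ N := by rw [mul_pow]; ring
        _ ≤ _ := h3
    omega
  · intro ξ hξ hξE S hS
    rw [mem_union, not_or] at hξE
    have hlarge : ∀ T : Finset ι, α * N ≤ T.card → α₁ * N ≤ T.card := fun T hT =>
      le_trans (mul_le_mul_of_nonneg_right (min_le_left _ _) (by positivity)) hT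
    have g₁ : ∀ T : Finset ι, α * N ≤ T.card →
        c₁ * (N : ℝ) ^ ((k : ℝ) - ε) ≤ (pk k (vals f (pt s ξ T))).card := by
      intro T hT
      by_contra hcon
      push Not at hcon
      exact hξE.1 (mem_filter.2 ⟨hξ, T, hlarge T hT, hcon⟩)
    have g₂ : ∀ T : Finset ι, α * N ≤ T.card →
        c₂ * (N : ℝ) ^ ((k₀ : ℝ) - ε₀) ≤ (pk k₀ (vals f (pt s ξ T))).card := by
      intro T hT
      by_contra hcon
      push Not at hcon
      exact hξE.2 (mem_filter.2 ⟨hξ, T, hlarge T hT, hcon⟩)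
    have gne : ∀ T : Finset ι, α * N ≤ T.card → (vals f (pt s ξ T)).Nonempty := by
      intro T hT
      by_contra hcon
      rw [not_nonempty_iff_eq_empty] at hcon
      have h3 := g₂ T hT
      rw [hcon] at h3
      have h4 : pk k₀ (∅ : Finset ℤ) = ∅ := by
        unfold pk
        rw [image_eq_empty]
        have : Nonempty (Fin k₀) := ⟨⟨0, hk₀1⟩⟩
        exact Fintype.piFinset_empty
      rw [h4, card_empty, Nat.cast_zero] at h3
      have : (0 : ℝ) < c₂ * (N : ℝ) ^ ((k₀ : ℝ) - ε₀) := by positivity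
      linarith
    have g₃ : ∀ T : Finset ι, α * N ≤ T.card → ∀ B : Finset ℂ, B.Nonempty → (0 : ℂ) ∉ B →
        c₃ * ((B.card : ℝ) * N) ^ (1 - ε₀) ≤ (AB B (vals f (pt s ξ T))).card := by
      intro T hT B hB hB0
      obtain ⟨b, hb⟩ := gne T hT
      have h3 := arbM hε₀0 hε₀1 hc₂ hNr k₀ hk₀r (vals f (pt s ξ T))
        ⟨b, hb, fun h => by unfold vals at hb; rw [h] at hb; exact notMem_erase _ _ hb⟩
        (g₂ T hT) B hB hB0
      exact le_trans (mul_le_mul_of_nonneg_right (min_le_left _ _) (by positivity)) h3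
    refine ⟨?_, ?_, ?_⟩
    · exact le_trans (mul_le_mul_of_nonneg_right (min_le_left _ _) (by positivity)) (g₁ S hS)
    · intro B hB hB0
      have hBr : (1 : ℝ) ≤ B.card := by exact_mod_cast card_pos.2 hB
      refine le_trans ?_ (g₃ S hS B hB hB0)
      refine mul_le_mul ?_ (Real.rpow_le_rpow_of_exponent_le (by nlinarith) ?_) (by positivity)
        hc₃0.le
      · refine (min_le_right _ _).trans ?_
        nlinarith
      · rw [hε₀]; linarith
    · intro T hT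
      set B : Finset ℂ := (vals f (pt s ξ S)).image fun z : ℤ => (z : ℂ) with hB
      have hBc : B.card = (vals f (pt s ξ S)).card := card_image_of_injective _ Int.cast_injective
      have hBne : B.Nonempty := (gne S hS).image _
      have hB0 : (0 : ℂ) ∉ B := by
        intro h4
        obtain ⟨z, hz, hz0⟩ := mem_image.1 h4
        have h5 : z = 0 := by exact_mod_cast hz0
        unfold vals at hz
        rw [h5] at hz
        exact notMem_erase _ _ hz
      have h3 := g₃ T hT B hBne hB0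
      have h4 := g₃ S hS {1} (by simp) (by simp)
      have h5 : (AB {1} (vals f (pt s ξ S))).card ≤ B.card := by
        unfold AB
        rw [hBc]
        refine card_image_le.trans ?_
        rw [card_product, card_singleton, one_mul]
      have h6 : c₃ * (N : ℝ) ^ (1 - ε₀) ≤ B.card := by
        rw [card_singleton, Nat.cast_one, one_mul] at h4
        exact h4.trans (by exact_mod_cast h5)
      have hNp' : (0 : ℝ) < N := by linarith
      calc min c₁ (c₃ ^ 2) * (N : ℝ) ^ (2 - ε) ≤ c₃ ^ 2 * (N : ℝ) ^ ((2 - ε₀) * (1 - ε₀)) := by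
            refine mul_le_mul (min_le_right _ _) (Real.rpow_le_rpow_of_exponent_le hNr ?_)
              (by positivity) (by positivity)
            rw [hε₀]
            nlinarith
        _ = c₃ * (c₃ * (N : ℝ) ^ ((2 - ε₀) * (1 - ε₀))) := by ring
        _ ≤ c₃ * (c₃ ^ (1 - ε₀) * (N : ℝ) ^ ((2 - ε₀) * (1 - ε₀))) := by
            refine mul_le_mul_of_nonneg_left (mul_le_mul_of_nonneg_right ?_ (by positivity)) hc₃0.le
            calc c₃ = c₃ ^ (1 : ℝ) := (Real.rpow_one _).symm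
              _ ≤ c₃ ^ (1 - ε₀) := Real.rpow_le_rpow_of_exponent_ge hc₃0 hc₃1 (by linarith)
        _ = c₃ * ((c₃ * (N : ℝ) ^ (1 - ε₀)) * N) ^ (1 - ε₀) := by
            rw [Real.mul_rpow (by positivity) hNp'.le, Real.mul_rpow hc₃0.le (by positivity),
              ← Real.rpow_mul hNp'.le, mul_assoc, ← Real.rpow_add hNp']
            congr 3
            ring
        _ ≤ c₃ * ((B.card : ℝ) * N) ^ (1 - ε₀) := by
            refine mul_le_mul_of_nonneg_left (Real.rpow_le_rpow (by positivity) ?_ (by linarith))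
              hc₃0.le
            exact mul_le_mul_of_nonneg_right h6 hNp'.le
        _ ≤ (AB B (vals f (pt s ξ T))).card := h3
        _ ≤ ((vals f (pt s ξ S) * vals f (pt s ξ T)).card : ℕ) := by
            exact_mod_cast AB_cast_le _ _

end Pool.Agent.K3h11.BP
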